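import Pool.Agent.W63.GP.ResA

/-!
# Contour integrals for one line (helper260)

The sums of `ζ(1/2+it) e^{-(t-t₀)²} / λ(t)` and of `e^{-(t-t₀)²} / λ(t)` over the points of a line are bounded.
Adapted from `Pool.Agent.W63.GP.ResA`.
-/

set_option autoImplicit false

open Complex MeasureTheory Set Filter Topology

namespace Pool.Agent.Q260.LR

open Pool.Agent.W188.QS
open Pool.Agent.W63.GP (norm_zeta_two cp_re cp_im cp_inj cp_sub Fu exp_norm refl_quot rf_mk residues vert bnd)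

/-- a window around `t₀` with good end points -/
def Win (c : ℂ) (T t₀ a b : ℝ) : Prop :=
  ‖c‖ = 1 ∧ T < t₀ ∧ t₀ ≤ 8 * T ∧ Good c 1 a ∧ Good c 1 b ∧ t₀ - Real.log T - 1 ≤ a ∧
    a ≤ t₀ - Real.log T ∧ t₀ + Real.log T ≤ b ∧ b ≤ t₀ + Real.log T + 1

theorem Tfacts {T : ℝ} (hTc : 200 ≤ T) : 1 ≤ Real.log T ∧ Real.log T + 1 ≤ T / 2 := by
  have hT0 : 0 < T := by linarith
  have hlog1 : 1 ≤ Real.log T := by
    rw [Real.le_log_iff_exp_le hT0]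
    have := Real.exp_one_lt_d9
    linarith
  have hlog2 : Real.log T + 1 ≤ T / 2 := by
    have e : Real.log T = Real.log (T / 4) + Real.log 4 := by
      rw [← Real.log_mul (by positivity) (by norm_num)]
      congr 1
      ring
    have e2 : Real.log (T / 4) ≤ T / 4 - 1 := Real.log_le_sub_one_of_pos (by positivity)
    have e3 : Real.log 4 ≤ 4 - 1 := Real.log_le_sub_one_of_pos (by norm_num)
    linarith
  exact ⟨hlog1, hlog2⟩

theorem win_exists (h3 : StGood) : ∃ T₀ : ℝ, 200 ≤ T₀ ∧ ∀ (c : ℂ) (T t₀ : ℝ), ‖c‖ = 1 → T₀ ≤ T →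
    T < t₀ → t₀ ≤ 8 * T → ∃ a b : ℝ, Win c T t₀ a b := by
  obtain ⟨T1, hT1, hgood⟩ := h3 1 le_rfl
  refine ⟨max (2 * T1) 200, le_max_right _ _, ?_⟩
  intro c T t₀ hc hT hTt htT
  have hTa : 2 * T1 ≤ T := (le_max_left _ _).trans hT
  have hTc : 200 ≤ T := (le_max_right _ _).trans hT
  obtain ⟨hlog1, hlog2⟩ := Tfacts hTc
  obtain ⟨a, ha1, ha2, hga⟩ := hgood c hc (t₀ - Real.log T - 1) (by linarith)
  obtain ⟨b, hb1, hb2, hgb⟩ := hgood c hc (t₀ + Real.log T) (by linarith)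
  exact ⟨a, b, hc, hTt, htT, hga, hgb, ha1, by linarith, hb1, hb2⟩

theorem refl_one (h1 : StBasic) {c : ℂ} (hc : ‖c‖ = 1) {s : ℂ} (hs : 1 ≤ s.im) :
    1 / ‖1 - ww c 1 (rf s)‖ = ‖ww c 1 s‖ / ‖1 - ww c 1 s‖ := by
  obtain ⟨-, hX, -, -, hz, -, -, hw⟩ := h1 s hs
  have hwX : ‖ww c 1 s‖ = ‖XX s‖⁻¹ := by
    unfold ww
    rw [norm_mul, hc, one_mul, pow_one, norm_inv]
  have hX0 : 0 < ‖XX s‖ := norm_pos_iff.2 hX
  have hw0 : 0 < ‖ww c 1 s‖ := by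
    rw [hwX]
    positivity
  have hwne : ww c 1 s ≠ 0 := norm_pos_iff.1 hw0
  have e1 : ‖1 - ww c 1 (rf s)‖ = ‖1 - ww c 1 s‖ / ‖ww c 1 s‖ := by
    rw [hw c 1 hc, ← RCLike.norm_conj (1 - ((starRingEnd ℂ) (ww c 1 s))⁻¹)]
    simp only [map_sub, map_one, map_inv₀, Complex.conj_conj]
    have : 1 - (ww c 1 s)⁻¹ = -(1 - ww c 1 s) / ww c 1 s := by
      field_simp
      ring
    rw [this, norm_div, norm_neg]
  rw [e1, one_div, inv_div]

theorem bnd2 {w : ℂ} (h : w.re ≤ 0) : ‖w‖ ≤ ‖1 - w‖ := by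
  rw [← sq_le_sq₀ (norm_nonneg _) (norm_nonneg _), ← Complex.normSq_eq_norm_sq,
    ← Complex.normSq_eq_norm_sq, Complex.normSq_apply, Complex.normSq_apply, Complex.sub_re,
    Complex.sub_im, Complex.one_re, Complex.one_im]
  nlinarith

/-- horizontal sides -/
theorem quot_h (h1 : StBasic) {c : ℂ} {y T : ℝ} (hc : ‖c‖ = 1) (hg : Good c 1 y) (hT : 200 ≤ T)
    (hy1 : T / 2 ≤ y) (hy2 : y ≤ 9 * T) {x : ℝ} (hx1 : -3 ≤ x) (hx2 : x ≤ 4) :
    ‖riemannZeta (⟨x, y⟩ : ℂ)‖ / ‖1 - ww c 1 (⟨x, y⟩ : ℂ)‖ ≤ 100 * T ∧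
      1 / ‖1 - ww c 1 (⟨x, y⟩ : ℂ)‖ ≤ 100 * T := by
  have hR : ∀ σ : ℝ, 1 / 2 ≤ σ → σ ≤ 4 →
      ‖riemannZeta (⟨σ, y⟩ : ℂ)‖ / ‖1 - ww c 1 (⟨σ, y⟩ : ℂ)‖ ≤ 100 * T := by
    intro σ hσ2 hσ4
    have g1 := bnd (hg.2 σ hσ2 hσ4)
    refine (div_le_self (norm_nonneg _) g1).trans ?_
    refine (Pool.Agent.H388LH.zeta_growth (s := (⟨σ, y⟩ : ℂ)) ?_ ?_).trans ?_
    · show 1 / 4 ≤ σ
      linarith
    · show 1 ≤ y
      linarith
    · have e1 : ‖(⟨σ, y⟩ : ℂ)‖ ≤ |σ| + |y| := Complex.norm_le_abs_re_add_abs_im _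
      rw [abs_of_nonneg (by linarith), abs_of_nonneg (by linarith)] at e1
      linarith
  rcases le_total (1 / 2) x with hx | hx
  · refine ⟨hR x hx hx2, ?_⟩
    have g1 := bnd (hg.2 x hx hx2)
    refine (div_le_self zero_le_one g1).trans (by linarith)
  · have hs : (⟨x, y⟩ : ℂ) = rf (⟨1 - x, y⟩ : ℂ) := by rw [rf_mk, sub_sub_cancel]
    have him : (1 : ℝ) ≤ (⟨1 - x, y⟩ : ℂ).im := by
      show (1 : ℝ) ≤ y
      linarith
    rw [hs]
    refine ⟨?_, ?_⟩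
    · rw [refl_quot h1 hc him]
      exact hR (1 - x) (by linarith) (by linarith)
    · rw [refl_one h1 hc him]
      have g := hg.2 (1 - x) (by linarith) (by linarith)
      have g1 := bnd g
      have g2 := bnd2 g
      rw [div_le_iff₀ (by linarith)]
      nlinarith

/-- vertical sides -/
theorem quot_v (h1 : StBasic) {K : ℝ} (hXX : ∀ s : ℂ, 1 / 2 ≤ s.re → s.re ≤ 4 → 1 ≤ s.im →
      Real.exp (-K) * s.im ^ (s.re - 1 / 2) ≤ ‖XX s‖ ∧ ‖XX s‖ ≤ Real.exp K * s.im ^ (s.re - 1 / 2))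
    {c : ℂ} {y : ℝ} (hc : ‖c‖ = 1) (hy : 100 ≤ y) (hyK : 2 * Real.exp K ≤ y) {x : ℝ}
    (hx : x = 4 ∨ x = -3) :
    ‖riemannZeta (⟨x, y⟩ : ℂ)‖ / ‖1 - ww c 1 (⟨x, y⟩ : ℂ)‖ ≤ 4 ∧
      1 / ‖1 - ww c 1 (⟨x, y⟩ : ℂ)‖ ≤ 4 := by
  have hz : ‖riemannZeta (⟨4, y⟩ : ℂ)‖ ≤ 2 := norm_zeta_two (by
    show (2 : ℝ) ≤ 4
    norm_num)
  have hX : 2 ≤ ‖XX (⟨4, y⟩ : ℂ)‖ := by
    have h4 := (hXX (⟨4, y⟩ : ℂ) (by show (1 / 2 : ℝ) ≤ 4; norm_num)
      (by show (4 : ℝ) ≤ 4; norm_num) (by show (1 : ℝ) ≤ y; linarith)).1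
    refine le_trans ?_ h4
    show 2 ≤ Real.exp (-K) * y ^ ((4 : ℝ) - 1 / 2)
    have e1 : y ≤ y ^ ((4 : ℝ) - 1 / 2) := by
      calc y = y ^ (1 : ℝ) := (Real.rpow_one y).symm
        _ ≤ y ^ ((4 : ℝ) - 1 / 2) :=
          Real.rpow_le_rpow_of_exponent_le (by linarith) (by norm_num)
    calc (2 : ℝ) = Real.exp (-K) * (2 * Real.exp K) := by
          rw [Real.exp_neg]
          field_simp
      _ ≤ Real.exp (-K) * y ^ ((4 : ℝ) - 1 / 2) :=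
          mul_le_mul_of_nonneg_left (hyK.trans e1) (Real.exp_pos _).le
  have hw : ‖ww c 1 (⟨4, y⟩ : ℂ)‖ ≤ 1 / 2 := by
    unfold ww
    rw [norm_mul, hc, one_mul, pow_one, norm_inv]
    rw [inv_le_comm₀ (by linarith) (by norm_num)]
    linarith
  have h1w : 1 / 2 ≤ ‖1 - ww c 1 (⟨4, y⟩ : ℂ)‖ := by
    have e1 := norm_sub_norm_le (1 : ℂ) (ww c 1 (⟨4, y⟩ : ℂ))
    rw [norm_one] at e1
    linarith
  have hR : ‖riemannZeta (⟨4, y⟩ : ℂ)‖ / ‖1 - ww c 1 (⟨4, y⟩ : ℂ)‖ ≤ 4 := by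
    rw [div_le_iff₀ (by linarith)]
    linarith
  rcases hx with h | h
  · rw [h]
    refine ⟨hR, ?_⟩
    rw [div_le_iff₀ (by linarith)]
    linarith
  · have hs : (⟨x, y⟩ : ℂ) = rf (⟨4, y⟩ : ℂ) := by
      rw [rf_mk, h]
      norm_num
    have him : (1 : ℝ) ≤ (⟨4, y⟩ : ℂ).im := by
      show (1 : ℝ) ≤ y
      linarith
    rw [hs]
    refine ⟨?_, ?_⟩
    · rw [refl_quot h1 hc him]
      exact hR
    · rw [refl_one h1 hc him, div_le_iff₀ (by linarith)]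
      linarith

/-- the constants -/
noncomputable def Kg : ℝ := ∫ y : ℝ, Real.exp (-(1 : ℝ) * y ^ 2)

noncomputable def EE : ℝ := Real.exp (49 / 4)

noncomputable def C1 : ℝ := 2 * (7 * (100 * EE)) + 2 * (4 * EE * Kg)

theorem Kg_nonneg : 0 ≤ Kg := integral_nonneg (fun y => (Real.exp_pos _).le)

theorem EE_pos : 0 < EE := Real.exp_pos _

theorem C1_nonneg : 0 ≤ C1 := by
  have h1 := Kg_nonneg
  have h2 := EE_pos
  unfold C1
  positivity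

theorem RI_bound {K : ℂ → ℂ} {T t₀ a b : ℝ} (hT0 : 0 < T) (hlog1 : 1 ≤ Real.log T) (hab : a ≤ b)
    (ha : Real.log T ≤ |a - t₀|) (hb : Real.log T ≤ |b - t₀|)
    (hh : ∀ x : ℝ, -3 ≤ x → x ≤ 4 → ∀ y : ℝ, (y = a ∨ y = b) →
      ‖K (⟨x, y⟩ : ℂ)‖ ≤ 100 * T * Real.exp ((x - 1 / 2) ^ 2 - (y - t₀) ^ 2))
    (hv : ∀ y : ℝ, a < y → y ≤ b → ∀ x : ℝ, (x = 4 ∨ x = -3) →
      ‖K (⟨x, y⟩ : ℂ)‖ ≤ 4 * Real.exp ((x - 1 / 2) ^ 2 - (y - t₀) ^ 2)) :
    ‖RI K (-3) 4 a b‖ ≤ C1 := by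
  have hhor : ∀ y : ℝ, (y = a ∨ y = b) → Real.log T ≤ |y - t₀| →
      ‖∫ x in (-3 : ℝ)..4, K (⟨x, y⟩ : ℂ)‖ ≤ 7 * (100 * EE) := by
    intro y hy hyt
    have h5 : ∀ x ∈ Set.uIoc (-3 : ℝ) 4, ‖K (⟨x, y⟩ : ℂ)‖ ≤ 100 * EE := by
      intro x hx
      rw [Set.uIoc_of_le (by norm_num)] at hx
      refine (hh x hx.1.le hx.2 y hy).trans ?_
      have hsq : Real.log T ^ 2 ≤ (y - t₀) ^ 2 := by
        rw [← sq_abs (y - t₀)]
        exact pow_le_pow_left₀ (by linarith) hyt 2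
      have hx3 : (x - 1 / 2) ^ 2 ≤ 49 / 4 := by nlinarith [hx.1, hx.2]
      have h7 : T * Real.exp (-Real.log T ^ 2) ≤ 1 := by
        have e1 : T = Real.exp (Real.log T) := (Real.exp_log hT0).symm
        calc T * Real.exp (-Real.log T ^ 2)
            = Real.exp (Real.log T) * Real.exp (-Real.log T ^ 2) := by rw [← e1]
          _ = Real.exp (Real.log T - Real.log T ^ 2) := by
              rw [← Real.exp_add]
              congr 1
          _ ≤ Real.exp 0 := Real.exp_le_exp.2 (by nlinarith)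
          _ = 1 := Real.exp_zero
      have h8 : Real.exp ((x - 1 / 2) ^ 2 - (y - t₀) ^ 2) ≤ EE * Real.exp (-Real.log T ^ 2) := by
        unfold EE
        rw [← Real.exp_add]
        exact Real.exp_le_exp.2 (by linarith)
      calc 100 * T * Real.exp ((x - 1 / 2) ^ 2 - (y - t₀) ^ 2)
          ≤ 100 * T * (EE * Real.exp (-Real.log T ^ 2)) := by gcongr
        _ = 100 * EE * (T * Real.exp (-Real.log T ^ 2)) := by ring
        _ ≤ 100 * EE * 1 := mul_le_mul_of_nonneg_left h7 (by have := EE_pos; positivity)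
        _ = 100 * EE := by ring
    have h8 := intervalIntegral.norm_integral_le_of_norm_le_const h5
    have h9 : |(4 : ℝ) - -3| = 7 := by norm_num
    rw [h9] at h8
    linarith
  have hA := hhor a (Or.inl rfl) ha
  have hB := hhor b (Or.inr rfl) hb
  have hver : ∀ x : ℝ, (x = 4 ∨ x = -3) →
      ‖∫ y in a..b, K (⟨x, y⟩ : ℂ)‖ ≤ 4 * EE * Kg := by
    intro x hx
    refine vert (t₀ := t₀) hab (by have := EE_pos; positivity) ?_
    intro y hy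
    refine (hv y hy.1 hy.2 x hx).trans (le_of_eq ?_)
    have hx2 : (x - 1 / 2) ^ 2 = 49 / 4 := by
      rcases hx with h | h <;> rw [h] <;> norm_num
    rw [hx2, EE, mul_assoc, ← Real.exp_add]
    congr 2
  have hC := hver 4 (Or.inl rfl)
  have hD := hver (-3) (Or.inr rfl)
  unfold RI C1
  have n1 := norm_sub_le ((∫ x in (-3 : ℝ)..4, K (⟨x, a⟩ : ℂ)) -
    (∫ x in (-3 : ℝ)..4, K (⟨x, b⟩ : ℂ)) + I * (∫ y in a..b, K (⟨4, y⟩ : ℂ)))
    (I * (∫ y in a..b, K (⟨-3, y⟩ : ℂ)))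
  have n2 := norm_add_le ((∫ x in (-3 : ℝ)..4, K (⟨x, a⟩ : ℂ)) -
    (∫ x in (-3 : ℝ)..4, K (⟨x, b⟩ : ℂ))) (I * (∫ y in a..b, K (⟨4, y⟩ : ℂ)))
  have n3 := norm_sub_le (∫ x in (-3 : ℝ)..4, K (⟨x, a⟩ : ℂ))
    (∫ x in (-3 : ℝ)..4, K (⟨x, b⟩ : ℂ))
  rw [norm_mul, Complex.norm_I, one_mul] at n1 n2
  linarith

/-- the integrand without pole at `t₀` -/
noncomputable def Gu (F : ℂ → ℂ) (c : ℂ) (t₀ : ℝ) (s : ℂ) : ℂ :=
  (F s * cexp ((s - cp t₀) ^ 2)) / (1 - ww c 1 s)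

/-- the residue theorem -/
theorem residues1 (h1 : StBasic) (h2 : StLine) {F : ℂ → ℂ}
    (hF : ∀ s : ℂ, 1 < s.im → DifferentiableAt ℂ F s) {c : ℂ} {t₀ a b : ℝ} (hc : ‖c‖ = 1)
    (ha : 100 ≤ a) (hab : a < b) (hwa : ww c 1 (cp a) = -1) (hwb : ww c 1 (cp b) = -1) :
    RI (Gu F c t₀) (-3) 4 a b = 2 * Real.pi * I *
      ∑ᶠ t ∈ PP c 1 ∩ Ioo a b, F (cp t) * (Real.exp (-(t - t₀) ^ 2) : ℂ) / (lam t : ℂ) := by
  classical
  obtain ⟨l1, l2, l3, l4, l5, l6, l7, l8, l9, l10⟩ := h2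
  have hfin : (PP c 1 ∩ Ioo a b).Finite :=
    (l10 c 1 hc le_rfl b).subset (fun t ht => ⟨ht.1, ht.2.2.le⟩)
  set S : Finset ℝ := hfin.toFinset with hS
  have hmemS : ∀ t, t ∈ S ↔ (100 < t ∧ ww c 1 (cp t) = 1) ∧ (a < t ∧ t < b) := by
    intro t
    rw [hS, Set.Finite.mem_toFinset]
    rfl
  set Z : Finset ℂ := S.image cp with hZ
  have hUo : IsOpen {s : ℂ | 1 < s.im} := isOpen_lt continuous_const Complex.continuous_im
  have hfd : DifferentiableOn ℂ (fun s => 1 - ww c 1 s) {s : ℂ | 1 < s.im} := by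
    intro s hs
    obtain ⟨b1, b2, b3, _⟩ := h1 s (le_of_lt hs)
    apply DifferentiableAt.differentiableWithinAt
    unfold ww
    exact (differentiableAt_const _).sub ((differentiableAt_const _).mul ((b1.inv b2).pow 1))
  have hHd : DifferentiableOn ℂ (fun s => F s * cexp ((s - cp t₀) ^ 2)) {s : ℂ | 1 < s.im} := by
    intro s hs
    apply DifferentiableAt.differentiableWithinAt
    apply DifferentiableAt.mul (hF s hs)
    exact ((differentiableAt_id.sub (differentiableAt_const _)).pow 2).cexp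
  have hR : Set.Icc (-3 : ℝ) 4 ×ℂ Set.Icc a b ⊆ {s : ℂ | 1 < s.im} := by
    intro s hs
    rw [mem_reProdIm] at hs
    show 1 < s.im
    have := hs.2.1
    linarith
  have h0 : ∀ s ∈ Set.Icc (-3 : ℝ) 4 ×ℂ Set.Icc a b, 1 - ww c 1 s = 0 ↔ s ∈ Z := by
    intro s hs
    rw [mem_reProdIm] at hs
    obtain ⟨⟨hs1, hs2⟩, hs3, hs4⟩ := hs
    obtain ⟨b1, b2, b3, b4, b5, b6, b7, b8⟩ := h1 s (by linarith)
    constructor
    · intro hw
      have hw1 : ww c 1 s = 1 := by linear_combination -hw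
      have hn : ‖XX s‖ = 1 := by
        have e1 : ‖ww c 1 s‖ = 1 := by rw [hw1, norm_one]
        unfold ww at e1
        rw [norm_mul, hc, one_mul, pow_one, norm_inv] at e1
        rw [inv_eq_one] at e1
        exact e1
      rcases lt_trichotomy s.re (1 / 2) with h | h | h
      · exfalso
        have r1 : (rf s).re = 1 - s.re := by unfold rf; simp
        have r2 : (rf s).im = s.im := by unfold rf; simp
        have := l6 (rf s) (by rw [r1]; linarith) (by rw [r1]; linarith) (by rw [r2]; linarith)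
        rw [b4, norm_inv, RCLike.norm_conj, hn] at this
        norm_num at this
      · have hcp : cp s.im = s := by
          apply Complex.ext
          · rw [cp_re, h]
          · rw [cp_im]
        rw [hZ, Finset.mem_image]
        refine ⟨s.im, ?_, hcp⟩
        rw [hmemS]
        have n1 : s.im ≠ a := by
          intro e
          rw [← e, hcp, hw1] at hwa
          norm_num at hwa
        have n2 : s.im ≠ b := by
          intro e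
          rw [← e, hcp, hw1] at hwb
          norm_num at hwb
        have n3 : a < s.im := lt_of_le_of_ne hs3 (Ne.symm n1)
        have n4 : s.im < b := lt_of_le_of_ne hs4 n2
        refine ⟨⟨by linarith, by rw [hcp]; exact hw1⟩, n3, n4⟩
      · exfalso
        have := l6 s h hs2 (by linarith)
        rw [hn] at this
        exact lt_irrefl _ this
    · intro hz
      rw [hZ, Finset.mem_image] at hz
      obtain ⟨t, ht, rfl⟩ := hz
      rw [((hmemS t).1 ht).1.2, sub_self]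
  have hder : ∀ t ∈ S, deriv (fun s => 1 - ww c 1 s) (cp t) = (lam t : ℂ) ∧ 1 ≤ lam t := by
    intro t ht
    obtain ⟨⟨t1, t2⟩, t3, t4⟩ := (hmemS t).1 ht
    obtain ⟨e1, _, e3⟩ := l1 t (by linarith)
    have hd := l7 c 1 (cp t) (by rw [cp_re]; norm_num) (by rw [cp_im]; linarith)
    rw [t2, e1, mul_one] at hd
    have hd2 : HasDerivAt (fun s => 1 - ww c 1 s) (0 - -(((1 : ℕ) : ℂ) * (lam t : ℂ))) (cp t) :=
      (hasDerivAt_const (cp t) (1 : ℂ)).sub hd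
    refine ⟨?_, e3⟩
    rw [hd2.deriv]
    push_cast
    ring
  have hres := SG.rect_res (fun s => 1 - ww c 1 s) (fun s => F s * cexp ((s - cp t₀) ^ 2))
    (-3) 4 a b (by norm_num) hab Z
    (by
      intro z hz
      rw [hZ, Finset.mem_image] at hz
      obtain ⟨t, ht, rfl⟩ := hz
      obtain ⟨_, t3, t4⟩ := (hmemS t).1 ht
      rw [mem_reProdIm, cp_re, cp_im]
      exact ⟨⟨by norm_num, by norm_num⟩, t3, t4⟩)
    (fun s hs => hfd.analyticAt (hUo.mem_nhds (hR hs)))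
    (fun s hs => hHd.analyticAt (hUo.mem_nhds (hR hs)))
    h0
    (by
      intro z hz
      rw [hZ, Finset.mem_image] at hz
      obtain ⟨t, ht, rfl⟩ := hz
      obtain ⟨d1, d2⟩ := hder t ht
      rw [d1]
      have : lam t ≠ 0 := by linarith
      exact_mod_cast this)
  have hlhs : RI (Gu F c t₀) (-3) 4 a b =
      SG.rectI (fun s => (F s * cexp ((s - cp t₀) ^ 2)) / (1 - ww c 1 s)) (-3) 4 a b := rfl
  rw [hlhs, hres, hZ, Finset.sum_image (fun x _ y _ h => cp_inj h),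
    finsum_mem_eq_finite_toFinset_sum _ hfin, ← hS]
  congr 1
  refine Finset.sum_congr rfl fun t ht => ?_
  rw [(hder t ht).1, cp_sub]
  congr 2
  rw [Complex.ofReal_exp]
  congr 1
  push_cast
  rw [mul_pow, Complex.I_sq]
  ring

/-- the three bounds -/
theorem three (h1 : StBasic) (h2 : StLine) : ∃ T₀ : ℝ, 200 ≤ T₀ ∧ ∀ (c : ℂ) (T t₀ a b : ℝ),
    T₀ ≤ T → Win c T t₀ a b →
    ‖∑ᶠ t ∈ PP c 1 ∩ Ioo a b, riemannZeta (cp t) * (Real.exp (-(t - t₀) ^ 2) : ℂ) /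
      (lam t : ℂ)‖ ≤ C1 ∧
    ‖∑ᶠ t ∈ PP c 1 ∩ Ioo a b, (1 : ℂ) * (Real.exp (-(t - t₀) ^ 2) : ℂ) / (lam t : ℂ)‖ ≤ C1 ∧
    (ww c 1 (cp t₀) ≠ 1 → ‖riemannZeta (cp t₀) / (1 - ww c 1 (cp t₀)) +
      ∑ᶠ t ∈ PP c 1 ∩ Ioo a b, riemannZeta (cp t) * (Real.exp (-(t - t₀) ^ 2) : ℂ) /
        ((lam t : ℂ) * ((t - t₀ : ℝ) * I))‖ ≤ C1) := by
  obtain ⟨K, hK, hXX⟩ := h2.2.2.2.2.2.2.2.2.1
  refine ⟨max (4 * Real.exp K) 200, le_max_right _ _, ?_⟩
  intro c T t₀ a b hT hwin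
  obtain ⟨hc, hTt, htT, hga, hgb, ha1, ha2, hb1, hb2⟩ := hwin
  have hTb : 4 * Real.exp K ≤ T := (le_max_left _ _).trans hT
  have hTc : 200 ≤ T := (le_max_right _ _).trans hT
  have hT0 : 0 < T := by linarith
  obtain ⟨hlog1, hlog2⟩ := Tfacts hTc
  have ha100 : 100 ≤ a := by linarith
  have haT : T / 2 ≤ a := by linarith
  have hbT : b ≤ 9 * T := by linarith
  have hat : a < t₀ := by linarith
  have htb : t₀ < b := by linarith
  have hab : a < b := hat.trans htb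
  have hla : Real.log T ≤ |a - t₀| := by
    rw [abs_sub_comm, abs_of_nonneg (by linarith)]
    linarith
  have hlb : Real.log T ≤ |b - t₀| := by
    rw [abs_of_nonneg (by linarith)]
    linarith
  have hpi := Real.pi_gt_three
  have key : ∀ Q R : ℂ, R = 2 * Real.pi * I * Q → ‖R‖ ≤ C1 → ‖Q‖ ≤ C1 := by
    intro Q R hR hRn
    refine le_trans ?_ hRn
    rw [hR, norm_mul, norm_mul, norm_mul, Complex.norm_I, mul_one, Complex.norm_real,
      Complex.norm_ofNat, Real.norm_eq_abs, abs_of_pos Real.pi_pos]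
    nlinarith [norm_nonneg Q]
  have hhq : ∀ x : ℝ, -3 ≤ x → x ≤ 4 → ∀ y : ℝ, (y = a ∨ y = b) →
      ‖riemannZeta (⟨x, y⟩ : ℂ)‖ / ‖1 - ww c 1 (⟨x, y⟩ : ℂ)‖ ≤ 100 * T ∧
      1 / ‖1 - ww c 1 (⟨x, y⟩ : ℂ)‖ ≤ 100 * T := by
    intro x hx1 hx2 y hy
    rcases hy with rfl | rfl
    · exact quot_h h1 hc hga hTc haT (by linarith) hx1 hx2
    · exact quot_h h1 hc hgb hTc (by linarith) hbT hx1 hx2
  have hvq : ∀ y : ℝ, a < y → y ≤ b → ∀ x : ℝ, (x = 4 ∨ x = -3) →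
      ‖riemannZeta (⟨x, y⟩ : ℂ)‖ / ‖1 - ww c 1 (⟨x, y⟩ : ℂ)‖ ≤ 4 ∧
      1 / ‖1 - ww c 1 (⟨x, y⟩ : ℂ)‖ ≤ 4 := by
    intro y hy1 hy2 x hx
    exact quot_v h1 hXX hc (by linarith) (by linarith) hx
  have hGn : ∀ (F : ℂ → ℂ) (x y : ℝ), ‖Gu F c t₀ (⟨x, y⟩ : ℂ)‖ =
      ‖F (⟨x, y⟩ : ℂ)‖ / ‖1 - ww c 1 (⟨x, y⟩ : ℂ)‖ *
        Real.exp ((x - 1 / 2) ^ 2 - (y - t₀) ^ 2) := by
    intro F x y
    unfold Gu
    rw [norm_div, norm_mul, exp_norm]
    ring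
  refine ⟨?_, ?_, ?_⟩
  · refine key _ _ (residues1 h1 h2 (F := riemannZeta) (t₀ := t₀) ?_ hc ha100 hab hga.1 hgb.1) ?_
    · intro s hs
      exact (h1 s hs.le).2.2.1
    · refine RI_bound hT0 hlog1 hab.le hla hlb ?_ ?_
      · intro x hx1 hx2 y hy
        rw [hGn]
        exact mul_le_mul_of_nonneg_right (hhq x hx1 hx2 y hy).1 (Real.exp_pos _).le
      · intro y hy1 hy2 x hx
        rw [hGn]
        exact mul_le_mul_of_nonneg_right (hvq y hy1 hy2 x hx).1 (Real.exp_pos _).le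
  · refine key _ _ (residues1 h1 h2 (F := fun _ => 1) (t₀ := t₀) ?_ hc ha100 hab hga.1 hgb.1) ?_
    · intro s hs
      exact differentiableAt_const _
    · refine RI_bound hT0 hlog1 hab.le hla hlb ?_ ?_
      · intro x hx1 hx2 y hy
        rw [hGn, norm_one]
        exact mul_le_mul_of_nonneg_right (hhq x hx1 hx2 y hy).2 (Real.exp_pos _).le
      · intro y hy1 hy2 x hx
        rw [hGn, norm_one]
        exact mul_le_mul_of_nonneg_right (hvq y hy1 hy2 x hx).2 (Real.exp_pos _).le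
  · intro hw0
    refine key _ _ (residues h1 h2 hc ha100 hat htb hga.1 hgb.1 hw0) ?_
    have hFn : ∀ (B x y : ℝ), ‖riemannZeta (⟨x, y⟩ : ℂ)‖ / ‖1 - ww c 1 (⟨x, y⟩ : ℂ)‖ ≤ B →
        1 ≤ ‖(⟨x, y⟩ : ℂ) - cp t₀‖ →
        ‖Fu c t₀ (⟨x, y⟩ : ℂ)‖ ≤ B * Real.exp ((x - 1 / 2) ^ 2 - (y - t₀) ^ 2) := by
      intro B x y hB hd
      have e1 : ‖Fu c t₀ (⟨x, y⟩ : ℂ)‖ =
          ‖riemannZeta (⟨x, y⟩ : ℂ)‖ / ‖1 - ww c 1 (⟨x, y⟩ : ℂ)‖ *
          (Real.exp ((x - 1 / 2) ^ 2 - (y - t₀) ^ 2) / ‖(⟨x, y⟩ : ℂ) - cp t₀‖) := by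
        unfold Fu
        rw [norm_div, norm_mul, norm_mul, exp_norm]
        rw [div_mul_div_comm]
      rw [e1]
      have hq0 : 0 ≤ ‖riemannZeta (⟨x, y⟩ : ℂ)‖ / ‖1 - ww c 1 (⟨x, y⟩ : ℂ)‖ := by positivity
      exact mul_le_mul hB (div_le_self (Real.exp_pos _).le hd) (by positivity) (hq0.trans hB)
    refine RI_bound hT0 hlog1 hab.le hla hlb ?_ ?_
    · intro x hx1 hx2 y hy
      refine hFn _ x y (hhq x hx1 hx2 y hy).1 ?_
      have e1 := Complex.abs_im_le_norm ((⟨x, y⟩ : ℂ) - cp t₀)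
      rw [Complex.sub_im, cp_im] at e1
      have e2 : Real.log T ≤ |y - t₀| := by
        rcases hy with rfl | rfl
        · exact hla
        · exact hlb
      exact hlog1.trans (e2.trans e1)
    · intro y hy1 hy2 x hx
      refine hFn _ x y (hvq y hy1 hy2 x hx).1 ?_
      have e1 := Complex.abs_re_le_norm ((⟨x, y⟩ : ℂ) - cp t₀)
      rw [Complex.sub_re, cp_re] at e1
      refine le_trans ?_ e1
      rcases hx with h | h
      · show (1 : ℝ) ≤ |x - 1 / 2|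
        rw [h]; norm_num
      · show (1 : ℝ) ≤ |x - 1 / 2|
        rw [h]; norm_num [abs_of_neg]

end Pool.Agent.Q260.LR
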