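import Pool.Agent.Q260.LR.Main

/-!
# One ray decides: consequences (helper260)
-/

set_option autoImplicit false

open Complex Set

namespace Pool.Agent.Q260.LR

open Pool.Agent.W188.QS (cp)

theorem cp_def (t : ℝ) : cp t = 1 / 2 + (t : ℂ) * I := rfl

theorem window {T t : ℝ} (hT : 100 ≤ T) (ht : |t - T| ≤ 3 * √(Real.log T)) :
    1 ≤ t ∧ t ≤ 2 * T := by
  have hl : 0 ≤ Real.log T := Real.log_nonneg (by linarith)
  have h1 : 3 * √(Real.log T) ≤ 3 / 2 * (1 + Real.log T) := by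
    have h := Real.sq_sqrt hl
    nlinarith [sq_nonneg (√(Real.log T) - 1)]
  have h2 : Real.log T ≤ T / 4 + 2 := by
    have e : Real.log T = Real.log (T / 4) + Real.log 4 := by
      rw [← Real.log_mul (by positivity) (by norm_num)]
      congr 1
      ring
    have e2 : Real.log (T / 4) ≤ T / 4 - 1 := Real.log_le_sub_one_of_pos (by positivity)
    have e3 : Real.log 4 ≤ 4 - 1 := Real.log_le_sub_one_of_pos (by norm_num)
    linarith
  obtain ⟨h3, h4⟩ := abs_le.1 ht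
  constructor <;> linarith

theorem all_directions : ∃ C T₀ : ℝ, 0 < C ∧ 100 ≤ T₀ ∧ ∀ T : ℝ, T₀ ≤ T →
    C * Real.log T ≤ ‖riemannZeta (cp T)‖ → ∀ u : ℂ, ‖u‖ = 1 →
      ∃ t r : ℝ, |t - T| ≤ 3 * √(Real.log T) ∧ riemannZeta (cp t) = (r : ℂ) * u ∧
        ‖riemannZeta (cp T)‖ ≤ C * Real.log T * r := by
  obtain ⟨C, T₀, hC, hT₀, h⟩ := local_bound
  refine ⟨4 * C, T₀, by linarith, by linarith, ?_⟩
  intro T hT hbig u hu
  by_contra hcon
  push Not at hcon
  have hlt : 1 ≤ Real.log T := by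
    rw [Real.le_log_iff_exp_le (by linarith)]
    have := Real.exp_one_lt_d9
    linarith
  have hD : 0 < 4 * C * Real.log T := by positivity
  set M : ℝ := ‖riemannZeta (cp T)‖ / (4 * C * Real.log T) with hM
  have hM1 : 1 ≤ M := by
    rw [hM, le_div_iff₀ hD, one_mul]
    exact hbig
  have hMe : M * (4 * C * Real.log T) = ‖riemannZeta (cp T)‖ := by
    rw [hM]
    exact div_mul_cancel₀ _ hD.ne'
  have h1 := h u T M hu hT (by linarith) (by
    intro t r ht hr hz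
    have h2 := hcon t r ht hz
    rw [hM, le_div_iff₀ hD]
    linarith)
  have h3 : C * (M + 1) * Real.log T ≤ 2 * (C * M * Real.log T) := by
    have : 0 ≤ C * Real.log T := by positivity
    nlinarith
  have h4 : 0 < C * M * Real.log T := by positivity
  nlinarith

/-- all values are `O(t ^ (θ + ε))` -/
def Exponent (θ : ℝ) : Prop :=
  ∀ ε : ℝ, 0 < ε → ∃ C : ℝ, ∀ t : ℝ, 1 ≤ t → ‖riemannZeta (cp t)‖ ≤ C * t ^ (θ + ε)

theorem moving (u : ℝ → ℂ) (hu : ∀ T, ‖u T‖ = 1) (θ : ℝ) (hθ : 0 ≤ θ) :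
    Exponent θ ↔ ∀ ε : ℝ, 0 < ε → ∃ C : ℝ, ∀ T t r : ℝ, 100 ≤ T → |t - T| ≤ 3 * √(Real.log T) →
      0 ≤ r → riemannZeta (cp t) = (r : ℂ) * u T → r ≤ C * T ^ (θ + ε) := by
  constructor
  · intro h ε hε
    obtain ⟨C, hC⟩ := h ε hε
    refine ⟨max C 0 * 2 ^ (θ + ε), ?_⟩
    intro T t r hT ht hr hz
    obtain ⟨h1, h2⟩ := window hT ht
    have h3 := hC t h1
    rw [hz, norm_mul, hu, mul_one, Complex.norm_real, Real.norm_eq_abs, abs_of_nonneg hr] at h3
    have h4 : t ^ (θ + ε) ≤ (2 * T) ^ (θ + ε) :=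
      Real.rpow_le_rpow (by linarith) h2 (by linarith)
    have h5 : (0 : ℝ) ≤ t ^ (θ + ε) := Real.rpow_nonneg (by linarith) _
    calc r ≤ C * t ^ (θ + ε) := h3
      _ ≤ max C 0 * t ^ (θ + ε) := mul_le_mul_of_nonneg_right (le_max_left _ _) h5
      _ ≤ max C 0 * (2 * T) ^ (θ + ε) := mul_le_mul_of_nonneg_left h4 (le_max_right _ _)
      _ = max C 0 * 2 ^ (θ + ε) * T ^ (θ + ε) := by
          rw [Real.mul_rpow (by norm_num) (by linarith)]
          ring
  · intro h ε hε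
    obtain ⟨C, hC⟩ := h (ε / 2) (by linarith)
    obtain ⟨K, T₀, hK, hT₀, hloc⟩ := local_bound
    set D : ℝ := max C 0 with hD
    have hD0 : 0 ≤ D := le_max_right _ _
    refine ⟨K * (D + 1) * (2 / ε) + 9 * (1 + T₀), ?_⟩
    intro t ht
    have hp1 : (1 : ℝ) ≤ t ^ (θ + ε) := Real.one_le_rpow ht (by linarith)
    have hA : 0 ≤ K * (D + 1) * (2 / ε) := by positivity
    by_cases htT : t ≤ T₀
    · have h1 := zeta_le t
      rw [abs_of_pos (by linarith)] at h1
      have h2 : 9 * (1 + t) ≤ 9 * (1 + T₀) := by linarith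
      have h3 : 9 * (1 + T₀) ≤ (K * (D + 1) * (2 / ε) + 9 * (1 + T₀)) * t ^ (θ + ε) := by
        have h4 : 0 ≤ 9 * (1 + T₀) := by linarith
        have h5 : 9 * (1 + T₀) ≤ K * (D + 1) * (2 / ε) + 9 * (1 + T₀) := by linarith
        have h6 := mul_le_mul h5 hp1 zero_le_one (by linarith)
        linarith
      linarith
    · push Not at htT
      have ht100 : 100 ≤ t := by linarith
      have hM0 : 0 ≤ D * t ^ (θ + ε / 2) := mul_nonneg hD0 (Real.rpow_nonneg (by linarith) _)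
      have h1 := hloc (u t) t (D * t ^ (θ + ε / 2)) (hu t) htT.le hM0 (by
        intro t' r ht' hr hz
        refine (hC t t' r ht100 ht' hr hz).trans ?_
        exact mul_le_mul_of_nonneg_right (le_max_left _ _) (Real.rpow_nonneg (by linarith) _))
      have h2 : (1 : ℝ) ≤ t ^ (θ + ε / 2) := Real.one_le_rpow ht (by linarith)
      have h3 : D * t ^ (θ + ε / 2) + 1 ≤ (D + 1) * t ^ (θ + ε / 2) := by linarith
      have h4 : Real.log t ≤ t ^ (ε / 2) / (ε / 2) := Real.log_le_rpow_div (by linarith) (by linarith)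
      have hlog : 0 ≤ Real.log t := Real.log_nonneg ht
      have h5 : t ^ (θ + ε / 2) * t ^ (ε / 2) = t ^ (θ + ε) := by
        rw [← Real.rpow_add (by linarith)]
        congr 1
        ring
      calc ‖riemannZeta (cp t)‖ ≤ K * (D * t ^ (θ + ε / 2) + 1) * Real.log t := h1
        _ ≤ K * ((D + 1) * t ^ (θ + ε / 2)) * (t ^ (ε / 2) / (ε / 2)) := by gcongr
        _ = K * (D + 1) * (2 / ε) * (t ^ (θ + ε / 2) * t ^ (ε / 2)) := by
            field_simp
        _ = K * (D + 1) * (2 / ε) * t ^ (θ + ε) := by rw [h5]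
        _ ≤ (K * (D + 1) * (2 / ε) + 9 * (1 + T₀)) * t ^ (θ + ε) := by
            refine mul_le_mul_of_nonneg_right ?_ (by linarith)
            linarith

theorem fixed (u : ℂ) (hu : u ≠ 0) (θ : ℝ) (hθ : 0 ≤ θ) :
    Exponent θ ↔ ∀ ε : ℝ, 0 < ε → ∃ C : ℝ, ∀ t r : ℝ, 1 ≤ t → 0 ≤ r →
      riemannZeta (cp t) = (r : ℂ) * u → r ≤ C * t ^ (θ + ε) := by
  have hn : 0 < ‖u‖ := norm_pos_iff.2 hu
  constructor
  · intro h ε hε
    obtain ⟨C, hC⟩ := h ε hε
    refine ⟨C / ‖u‖, ?_⟩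
    intro t r ht hr hz
    have h1 := hC t ht
    rw [hz, norm_mul, Complex.norm_real, Real.norm_eq_abs, abs_of_nonneg hr] at h1
    rw [div_mul_eq_mul_div, le_div_iff₀ hn]
    exact h1
  · intro h
    have hun : ‖u / (‖u‖ : ℂ)‖ = 1 := by
      rw [norm_div, Complex.norm_real, norm_norm, div_self hn.ne']
    refine (moving (fun _ => u / (‖u‖ : ℂ)) (fun _ => hun) θ hθ).2 ?_
    intro ε hε
    obtain ⟨C, hC⟩ := h ε hε
    refine ⟨‖u‖ * max C 0 * 2 ^ (θ + ε), ?_⟩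
    intro T t r hT ht hr hz
    obtain ⟨h1, h2⟩ := window hT ht
    have h3 := hC t (r / ‖u‖) h1 (by positivity) (by
      rw [hz]
      push_cast
      ring)
    rw [div_le_iff₀ hn] at h3
    have h4 : t ^ (θ + ε) ≤ (2 * T) ^ (θ + ε) :=
      Real.rpow_le_rpow (by linarith) h2 (by linarith)
    have h5 : (0 : ℝ) ≤ t ^ (θ + ε) := Real.rpow_nonneg (by linarith) _
    have h6 : C * t ^ (θ + ε) ≤ max C 0 * (2 * T) ^ (θ + ε) :=
      (mul_le_mul_of_nonneg_right (le_max_left _ _) h5).trans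
        (mul_le_mul_of_nonneg_left h4 (le_max_right _ _))
    calc r ≤ C * t ^ (θ + ε) * ‖u‖ := h3
      _ ≤ max C 0 * (2 * T) ^ (θ + ε) * ‖u‖ := mul_le_mul_of_nonneg_right h6 hn.le
      _ = ‖u‖ * max C 0 * 2 ^ (θ + ε) * T ^ (θ + ε) := by
          rw [Real.mul_rpow (by norm_num) (by linarith)]
          ring

end Pool.Agent.Q260.LR
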