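import Pool.Agent.Q260.LR.Core
import Pool.Agent.W565.GP.LocCore
import Pool.Agent.W32.GP.Tau

/-!
# One ray decides (helper260)
-/

set_option autoImplicit false

open Complex MeasureTheory Set Filter Topology

namespace Pool.Agent.Q260.LR

open Pool.Agent.W188.GP Pool.Agent.W188.QS
open Pool.Agent.W63.GP (cp_re cp_im cp_inj cp_sub)
open Pool.Agent.W565.GP (nd_card ww_one_iff ZZ_le)

theorem b1 : StBasic := Pool.Agent.W22.QS.qs_basic
theorem b2 : StLine := Pool.Agent.W338.QS.qs_line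
theorem b3 : StGood := Pool.Agent.W563.QS.Good.qs_good b2
theorem bt : StTau := Pool.Agent.W32.GPT.gp_tau

theorem norm_XX (t : ℝ) : ‖XX (cp t)‖ = 1 := b2.2.1 t

theorem lam_facts {t : ℝ} (ht : 100 ≤ t) : 1 ≤ lam t ∧ lam t ≤ Real.log t := by
  refine ⟨(b2.1 t (by linarith)).2.2, ?_⟩
  have h := bt.2.2.2.2.2.2.2.2.2.2.2.1 t ht
  rw [← h.1]
  exact h.2

theorem zeta_le (t : ℝ) : ‖riemannZeta (cp t)‖ ≤ 9 * (1 + |t|) := ZZ_le t

/-- every number of modulus one is `XX (cp 100) e^{2π i γ}` -/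
theorem exists_gamma {c : ℂ} (hc : ‖c‖ = 1) : ∃ γ : ℝ,
    c = XX (cp 100) * cexp (2 * Real.pi * γ * I) := by
  have h0 : XX (cp 100) ≠ 0 := by
    intro h
    have := norm_XX 100
    rw [h, norm_zero] at this
    norm_num at this
  refine ⟨arg (c / XX (cp 100)) / (2 * Real.pi), ?_⟩
  have h1 : ‖c / XX (cp 100)‖ = 1 := by rw [norm_div, hc, norm_XX, div_one]
  have h2 := Complex.norm_mul_exp_arg_mul_I (c / XX (cp 100))
  rw [h1, ofReal_one, one_mul] at h2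
  have h3 : (2 : ℂ) * Real.pi * ((arg (c / XX (cp 100)) / (2 * Real.pi) : ℝ) : ℂ) * I =
      (arg (c / XX (cp 100)) : ℂ) * I := by
    have hpi : (Real.pi : ℂ) ≠ 0 := by exact_mod_cast Real.pi_ne_zero
    push_cast
    field_simp
  rw [h3, h2]
  field_simp

theorem card_bound {c : ℂ} (hc : ‖c‖ = 1) {T a b : ℝ} (hT : 1000 ≤ T) (ha : T / 2 ≤ a)
    (hb : b ≤ 16 * T) (S : Finset ℝ) (hS : ∀ t ∈ S, t ∈ PP c 1 ∩ Ioo a b) :
    (S.card : ℝ) ≤ 257 * T ^ 2 := by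
  classical
  obtain ⟨γ, hγ⟩ := exists_gamma hc
  have hb' := bt
  obtain ⟨hmono, -, -, hlam1, -, htv, hvt, htmono, -, -, -, hlam, hnd⟩ := hb'
  have hsub : S ⊆ (nd γ (T / 2) (16 * T)).image (fun n : ℤ => tau (n + γ)) := by
    intro t ht
    obtain ⟨⟨h100, hw1⟩, hab⟩ := hS t ht
    rw [hγ] at hw1
    obtain ⟨n, hn⟩ := (ww_one_iff bt norm_XX γ h100.le).mp hw1
    have hn2 : tau (n + γ) = t := by rw [← hn, htv]
    rw [Finset.mem_image]
    refine ⟨n, ?_, hn2⟩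
    rw [hnd, hn2]
    exact ⟨by linarith [hab.1], by linarith [hab.2]⟩
  have h1 : S.card ≤ (nd γ (T / 2) (16 * T)).card :=
    (Finset.card_le_card hsub).trans Finset.card_image_le
  refine le_trans ?_ (nd_card bt hT γ)
  exact_mod_cast h1

theorem ww_lip {c : ℂ} (hc : ‖c‖ = 1) {x y Y : ℝ} (hx : 100 ≤ x) (hy : 100 ≤ y) (hxY : x ≤ Y)
    (hyY : y ≤ Y) : ‖ww c 1 (cp x) - ww c 1 (cp y)‖ ≤ Real.log Y * |x - y| := by
  have hcp : ∀ t : ℝ, HasDerivAt cp I t := by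
    intro t
    have h1 : HasDerivAt (fun t : ℝ => (t : ℂ) * I) (1 * I) t :=
      (Complex.ofRealCLM.hasDerivAt (x := t)).mul_const I
    have h2 := h1.const_add (1 / 2 : ℂ)
    rw [one_mul] at h2
    exact h2
  have hder : ∀ t ∈ Icc (100 : ℝ) Y, HasDerivWithinAt (fun t : ℝ => ww c 1 (cp t))
      (-(((1 : ℕ) : ℂ) * ww c 1 (cp t) * logDeriv XX (cp t)) * I) (Icc 100 Y) t := by
    intro t ht
    have h1 := b2.2.2.2.2.2.2.1 c 1 (cp t) (by rw [cp_re]; norm_num) (by rw [cp_im]; linarith [ht.1])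
    exact (h1.comp t (hcp t)).hasDerivWithinAt
  have hbound : ∀ t ∈ Icc (100 : ℝ) Y,
      ‖-(((1 : ℕ) : ℂ) * ww c 1 (cp t) * logDeriv XX (cp t)) * I‖ ≤ Real.log Y := by
    intro t ht
    obtain ⟨e1, -, -⟩ := b2.1 t (by linarith [ht.1])
    obtain ⟨e2, e3⟩ := lam_facts ht.1
    have hw : ‖ww c 1 (cp t)‖ = 1 := by
      unfold ww
      rw [norm_mul, hc, one_mul, pow_one, norm_inv, norm_XX, inv_one]
    rw [norm_mul, norm_neg, norm_mul, norm_mul, hw, e1, Complex.norm_I, Complex.norm_real,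
      Real.norm_eq_abs, abs_of_pos (by linarith)]
    simp only [Nat.cast_one, norm_one, one_mul, mul_one]
    exact e3.trans (Real.log_le_log (by linarith [ht.1]) ht.2)
  have h := Convex.norm_image_sub_le_of_norm_hasDerivWithin_le hder hbound (convex_Icc 100 Y)
    (x := y) (y := x) ⟨hy, hyY⟩ ⟨hx, hxY⟩
  rw [Real.norm_eq_abs] at h
  exact h

/-- the coordinate on the line -/
noncomputable def ff (u : ℂ) (t : ℝ) : ℝ := ((starRingEnd ℂ) u * riemannZeta (cp t)).re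

theorem zeta_eq {u : ℂ} (hu : ‖u‖ = 1) {t : ℝ} (ht : 100 < t)
    (hw : ww ((starRingEnd ℂ) u ^ 2) 1 (cp t) = 1) : riemannZeta (cp t) = (ff u t : ℂ) * u := by
  have h1 := b2.2.2.1 t (by linarith)
  have hX0 : XX (cp t) ≠ 0 := (b1 (cp t) (by rw [cp_im]; linarith)).2.1
  have hX : XX (cp t) = (starRingEnd ℂ) u ^ 2 := by
    unfold ww at hw
    rw [pow_one] at hw
    field_simp at hw
    exact hw.symm
  have huu : u * (starRingEnd ℂ) u = 1 := by
    rw [Complex.mul_conj, Complex.normSq_eq_norm_sq, hu]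
    norm_num
  rw [hX] at h1
  have hreal : (starRingEnd ℂ) ((starRingEnd ℂ) u * riemannZeta (cp t)) =
      (starRingEnd ℂ) u * riemannZeta (cp t) := by
    rw [map_mul, Complex.conj_conj, h1]
    calc u * ((starRingEnd ℂ) u ^ 2 * riemannZeta (cp t)) =
        (u * (starRingEnd ℂ) u) * ((starRingEnd ℂ) u * riemannZeta (cp t)) := by ring
      _ = _ := by rw [huu, one_mul]
  have h2 : (ff u t : ℂ) = (starRingEnd ℂ) u * riemannZeta (cp t) := by
    unfold ff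
    exact Complex.conj_eq_iff_re.mp hreal
  rw [h2]
  calc riemannZeta (cp t) = (u * (starRingEnd ℂ) u) * riemannZeta (cp t) := by rw [huu, one_mul]
    _ = _ := by ring


theorem tail_small {T t₀ : ℝ} (hT : 1000 ≤ T) (ht : T ≤ t₀) :
    (257 * T ^ 2) * (9 * (1 + 16 * T) * Real.exp (-(9 * Real.log t₀))) ≤ 1 := by
  have hT0 : 0 < T := by linarith
  have h1 : Real.exp (-(9 * Real.log t₀)) ≤ (T ^ 9)⁻¹ := by
    have h2 : Real.exp (-(9 * Real.log t₀)) ≤ Real.exp (-(9 * Real.log T)) := by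
      apply Real.exp_le_exp.mpr
      have := Real.log_le_log hT0 ht
      linarith
    have h3 : Real.exp (-(9 * Real.log T)) = (T ^ 9)⁻¹ := by
      rw [Real.exp_neg]
      congr 1
      have : (9 : ℝ) * Real.log T = ((9 : ℕ) : ℝ) * Real.log T := by norm_num
      rw [this, Real.exp_nat_mul, Real.exp_log hT0]
    rw [← h3]
    exact h2
  calc (257 * T ^ 2) * (9 * (1 + 16 * T) * Real.exp (-(9 * Real.log t₀))) ≤
      (257 * T ^ 2) * (9 * (1 + 16 * T) * (T ^ 9)⁻¹) := by gcongr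
    _ ≤ (257 * T ^ 2) * (9 * (17 * T) * (T ^ 9)⁻¹) := by
        gcongr
        linarith
    _ = 39321 / T ^ 6 := by
        field_simp
        ring
    _ ≤ 1 := by
        rw [div_le_one (by positivity)]
        calc (39321 : ℝ) ≤ 1000 ^ 6 := by norm_num
          _ ≤ T ^ 6 := pow_le_pow_left₀ (by norm_num) hT 6

theorem win_facts {c : ℂ} {T t₀ a b : ℝ} (hT : 1000 ≤ T) (hw : Win c T t₀ a b) :
    T / 2 ≤ a ∧ b ≤ 9 * T ∧ a < t₀ ∧ t₀ < b := by
  obtain ⟨hlog1, hlog2⟩ := Tfacts (by linarith : 200 ≤ T)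
  obtain ⟨hc, hTt, htT, hga, hgb, ha1, ha2, hb1, hb2⟩ := hw
  refine ⟨by linarith, by linarith, by linarith, by linarith⟩

/-- the local `ℓ¹` bound -/
theorem l1_bound : ∃ T₀ : ℝ, 1000 ≤ T₀ ∧ ∀ (u : ℂ) (T t₀ a b M : ℝ), ‖u‖ = 1 → T₀ ≤ T → 0 ≤ M →
    Win ((starRingEnd ℂ) u ^ 2) T t₀ a b →
    (∀ t r : ℝ, |t - t₀| ≤ 3 * √(Real.log t₀) → 0 ≤ r → riemannZeta (cp t) = (r : ℂ) * u → r ≤ M) →
    ∀ S : Finset ℝ, (S : Set ℝ) = PP ((starRingEnd ℂ) u ^ 2) 1 ∩ Ioo a b →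
    ∑ t ∈ S, |ff u t| * (Real.exp (-(t - t₀) ^ 2) / lam t) ≤ 2 * (C1 * M + 1) + C1 := by
  obtain ⟨T₁, hT₁, h3⟩ := three b1 b2
  refine ⟨max T₁ 1000, le_max_right _ _, ?_⟩
  intro u T t₀ a b M hu hT hM hwin hyp S hS
  have hT1 : T₁ ≤ T := (le_max_left _ _).trans hT
  have hT2 : 1000 ≤ T := (le_max_right _ _).trans hT
  obtain ⟨w1, w2, w3, w4⟩ := win_facts hT2 hwin
  have hc : ‖(starRingEnd ℂ) u ^ 2‖ = 1 := hwin.1
  have hTt : T < t₀ := hwin.2.1
  have htT : t₀ ≤ 8 * T := hwin.2.2.1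
  obtain ⟨s1, s2, -⟩ := h3 _ T t₀ a b hT1 hwin
  rw [← hS, finsum_mem_coe_finset] at s1 s2
  have hmem : ∀ t ∈ S, t ∈ PP ((starRingEnd ℂ) u ^ 2) 1 ∩ Ioo a b := by
    intro t ht
    rw [← hS]
    exact ht
  set A : ℝ → ℝ := fun t => Real.exp (-(t - t₀) ^ 2) / lam t with hA
  have hA0 : ∀ t ∈ S, 0 ≤ A t ∧ A t ≤ Real.exp (-(t - t₀) ^ 2) := by
    intro t ht
    obtain ⟨⟨h100, -⟩, -⟩ := hmem t ht
    have h1 := (lam_facts h100.le).1
    refine ⟨by rw [hA]; positivity, ?_⟩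
    exact div_le_self (Real.exp_pos _).le h1
  have e1 : ∑ t ∈ S, riemannZeta (cp t) * (Real.exp (-(t - t₀) ^ 2) : ℂ) / (lam t : ℂ) =
      ((∑ t ∈ S, ff u t * A t : ℝ) : ℂ) * u := by
    rw [ofReal_sum, Finset.sum_mul]
    refine Finset.sum_congr rfl fun t ht => ?_
    obtain ⟨⟨h100, hw1⟩, -⟩ := hmem t ht
    rw [zeta_eq hu h100 hw1, hA]
    push_cast
    ring
  rw [e1, norm_mul, hu, mul_one, Complex.norm_real, Real.norm_eq_abs] at s1
  have e2 : ∑ t ∈ S, (1 : ℂ) * (Real.exp (-(t - t₀) ^ 2) : ℂ) / (lam t : ℂ) =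
      ((∑ t ∈ S, A t : ℝ) : ℂ) := by
    rw [ofReal_sum]
    refine Finset.sum_congr rfl fun t ht => ?_
    rw [hA]
    push_cast
    ring
  rw [e2, Complex.norm_real, Real.norm_eq_abs] at s2
  have s3 : ∑ t ∈ S, A t ≤ C1 := (le_abs_self _).trans s2
  have s4 : -∑ t ∈ S, ff u t * A t ≤ C1 := (neg_le_abs _).trans s1
  set R : ℝ := 9 * (1 + 16 * T) * Real.exp (-(9 * Real.log t₀)) with hR
  have hR0 : 0 ≤ R := by positivity
  have hfle : ∀ t ∈ S, |ff u t| ≤ 9 * (1 + 16 * T) := by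
    intro t ht
    obtain ⟨⟨h100, hw1⟩, hab⟩ := hmem t ht
    have h1 : |ff u t| ≤ ‖(starRingEnd ℂ) u * riemannZeta (cp t)‖ := Complex.abs_re_le_norm _
    rw [norm_mul, RCLike.norm_conj, hu, one_mul] at h1
    refine h1.trans ((zeta_le t).trans ?_)
    rw [abs_of_pos (by linarith)]
    linarith [hab.2]
  have hterm : ∀ t ∈ S, max (ff u t) 0 * A t ≤ M * A t + R := by
    intro t ht
    obtain ⟨a1, a2⟩ := hA0 t ht
    obtain ⟨⟨h100, hw1⟩, hab⟩ := hmem t ht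
    by_cases hd : |t - t₀| ≤ 3 * √(Real.log t₀)
    · have h1 : max (ff u t) 0 ≤ M := by
        rcases le_total (ff u t) 0 with h | h
        · rw [max_eq_right h]
          exact hM
        · rw [max_eq_left h]
          exact hyp t (ff u t) hd h (zeta_eq hu h100 hw1)
      have := mul_le_mul_of_nonneg_right h1 a1
      linarith
    · push Not at hd
      have h1 : max (ff u t) 0 ≤ 9 * (1 + 16 * T) :=
        max_le ((le_abs_self _).trans (hfle t ht)) (by linarith)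
      have h2 : Real.exp (-(t - t₀) ^ 2) ≤ Real.exp (-(9 * Real.log t₀)) := by
        apply Real.exp_le_exp.mpr
        have hl : 0 ≤ Real.log t₀ := Real.log_nonneg (by linarith)
        have h3 : (3 * √(Real.log t₀)) ^ 2 ≤ |t - t₀| ^ 2 := pow_le_pow_left₀ (by positivity) hd.le 2
        rw [mul_pow, Real.sq_sqrt hl, sq_abs] at h3
        linarith
      have h3 : max (ff u t) 0 * A t ≤ R := by
        rw [hR]
        exact mul_le_mul h1 (a2.trans h2) a1 (by linarith)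
      have := mul_nonneg hM a1
      linarith
  have hcard := card_bound hc hT2 w1 (by linarith) S hmem
  have hsum : ∑ t ∈ S, max (ff u t) 0 * A t ≤ C1 * M + 1 := by
    calc ∑ t ∈ S, max (ff u t) 0 * A t ≤ ∑ t ∈ S, (M * A t + R) := Finset.sum_le_sum hterm
      _ = M * ∑ t ∈ S, A t + S.card * R := by
          rw [Finset.sum_add_distrib, ← Finset.mul_sum, Finset.sum_const, nsmul_eq_mul]
      _ ≤ M * C1 + (257 * T ^ 2) * R := by gcongr
      _ ≤ C1 * M + 1 := by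
          have := tail_small hT2 hTt.le
          rw [← hR] at this
          linarith
  have hid : ∀ t ∈ S, |ff u t| * (Real.exp (-(t - t₀) ^ 2) / lam t) =
      2 * (max (ff u t) 0 * A t) - ff u t * A t := by
    intro t ht
    have : |ff u t| = 2 * max (ff u t) 0 - ff u t := by
      rcases le_total (ff u t) 0 with h | h
      · rw [max_eq_right h, abs_of_nonpos h]
        ring
      · rw [max_eq_left h, abs_of_nonneg h]
        ring
    rw [this]
    show (2 * max (ff u t) 0 - ff u t) * A t = _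
    ring
  rw [Finset.sum_congr rfl hid, Finset.sum_sub_distrib, ← Finset.mul_sum]
  linarith

/-- the local theorem -/
theorem local_bound : ∃ C T₀ : ℝ, 1 ≤ C ∧ 1000 ≤ T₀ ∧ ∀ (u : ℂ) (T M : ℝ), ‖u‖ = 1 → T₀ ≤ T → 0 ≤ M →
    (∀ t r : ℝ, |t - T| ≤ 3 * √(Real.log T) → 0 ≤ r → riemannZeta (cp t) = (r : ℂ) * u → r ≤ M) →
    ‖riemannZeta (cp T)‖ ≤ C * (M + 1) * Real.log T := by
  obtain ⟨T₁, hT₁, h1⟩ := l1_bound
  obtain ⟨T₂, hT₂, h2⟩ := three b1 b2
  obtain ⟨T₃, hT₃, h3⟩ := win_exists b3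
  have hC1 := C1_nonneg
  refine ⟨8 * C1 + 4, 2 * max T₁ (max T₂ T₃), by linarith, ?_, ?_⟩
  · have := le_max_left T₁ (max T₂ T₃)
    linarith
  intro u t₀ M hu ht0 hM hyp
  have hm1 := le_max_left T₁ (max T₂ T₃)
  have hm2 := (le_max_left T₂ T₃).trans (le_max_right T₁ (max T₂ T₃))
  have hm3 := (le_max_right T₂ T₃).trans (le_max_right T₁ (max T₂ T₃))
  obtain ⟨T, hTd⟩ : ∃ T : ℝ, T = t₀ / 2 := ⟨_, rfl⟩
  have hTt : T < t₀ := by rw [hTd]; linarith
  have htT : t₀ ≤ 8 * T := by rw [hTd]; linarith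
  have hTT1 : T₁ ≤ T := by rw [hTd]; linarith
  have hTT2 : T₂ ≤ T := by rw [hTd]; linarith
  have hTT3 : T₃ ≤ T := by rw [hTd]; linarith
  have hT1000 : 1000 ≤ T := hT₁.trans hTT1
  have hc : ‖(starRingEnd ℂ) u ^ 2‖ = 1 := by
    rw [norm_pow, RCLike.norm_conj, hu, one_pow]
  obtain ⟨a, b, hwin⟩ := h3 _ T t₀ hc hTT3 hTt htT
  obtain ⟨w1, w2, w3, w4⟩ := win_facts hT1000 hwin
  have hfin : (PP ((starRingEnd ℂ) u ^ 2) 1 ∩ Ioo a b).Finite :=
    (b2.2.2.2.2.2.2.2.2.2 _ 1 hc le_rfl b).subset (fun t ht => ⟨ht.1, ht.2.2.le⟩)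
  obtain ⟨S, hS⟩ : ∃ S : Finset ℝ, (S : Set ℝ) = PP ((starRingEnd ℂ) u ^ 2) 1 ∩ Ioo a b :=
    ⟨hfin.toFinset, hfin.coe_toFinset⟩
  have hmem : ∀ t ∈ S, t ∈ PP ((starRingEnd ℂ) u ^ 2) 1 ∩ Ioo a b := by
    intro t ht
    rw [← hS]
    exact ht
  have hl := h1 u T t₀ a b M hu hTT1 hM hwin hyp S hS
  set L : ℝ := ∑ t ∈ S, |ff u t| * (Real.exp (-(t - t₀) ^ 2) / lam t) with hL
  have hlt : 1 ≤ Real.log t₀ := by
    rw [Real.le_log_iff_exp_le (by linarith)]
    have := Real.exp_one_lt_d9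
    linarith
  have hLM : L ≤ (3 * C1 + 2) * (M + 1) := by nlinarith
  have hL0 : 0 ≤ L := by
    rw [hL]
    refine Finset.sum_nonneg fun t ht => ?_
    have := (lam_facts (hmem t ht).1.1.le).1
    positivity
  by_cases hw0 : ww ((starRingEnd ℂ) u ^ 2) 1 (cp t₀) = 1
  · -- `t₀` is one of the points
    have ht0S : t₀ ∈ S := by
      rw [← Finset.mem_coe, hS]
      exact ⟨⟨by linarith, hw0⟩, w3, w4⟩
    have h4 : |ff u t₀| * (Real.exp (-(t₀ - t₀) ^ 2) / lam t₀) ≤ L := by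
      rw [hL]
      refine Finset.single_le_sum (f := fun t => |ff u t| * (Real.exp (-(t - t₀) ^ 2) / lam t))
        (fun t ht => ?_) ht0S
      have := (lam_facts (hmem t ht).1.1.le).1
      positivity
    obtain ⟨l1, l2⟩ := lam_facts (by linarith : (100 : ℝ) ≤ t₀)
    rw [sub_self] at h4
    norm_num at h4
    rw [← div_eq_mul_inv, div_le_iff₀ (by linarith)] at h4
    rw [zeta_eq hu (by linarith) hw0, norm_mul, hu, mul_one, Complex.norm_real, Real.norm_eq_abs]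
    calc |ff u t₀| ≤ L * lam t₀ := h4
      _ ≤ ((3 * C1 + 2) * (M + 1)) * Real.log t₀ := by gcongr
      _ ≤ (8 * C1 + 4) * (M + 1) * Real.log t₀ := by
          have : (3 * C1 + 2) * (M + 1) ≤ (8 * C1 + 4) * (M + 1) := by nlinarith
          exact mul_le_mul_of_nonneg_right this (by linarith)
  · have h5 := (h2 _ T t₀ a b hTT2 hwin).2.2 hw0
    rw [← hS, finsum_mem_coe_finset] at h5
    set W : ℂ := 1 - ww ((starRingEnd ℂ) u ^ 2) 1 (cp t₀) with hW
    have hW0 : W ≠ 0 := fun h => hw0 (sub_eq_zero.mp h).symm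
    have hWn : 0 < ‖W‖ := norm_pos_iff.2 hW0
    have hW2 : ‖W‖ ≤ 2 := by
      have hwn : ‖ww ((starRingEnd ℂ) u ^ 2) 1 (cp t₀)‖ = 1 := by
        unfold ww
        rw [norm_mul, hc, one_mul, pow_one, norm_inv, norm_XX, inv_one]
      have := norm_sub_le (1 : ℂ) (ww ((starRingEnd ℂ) u ^ 2) 1 (cp t₀))
      rw [hwn, norm_one] at this
      linarith
    have hsum : ‖∑ t ∈ S, riemannZeta (cp t) * (Real.exp (-(t - t₀) ^ 2) : ℂ) /
        ((lam t : ℂ) * ((t - t₀ : ℝ) * I))‖ * ‖W‖ ≤ Real.log (9 * T) * L := by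
      refine (mul_le_mul_of_nonneg_right (norm_sum_le _ _) hWn.le).trans ?_
      rw [Finset.sum_mul, hL, Finset.mul_sum]
      refine Finset.sum_le_sum fun t ht => ?_
      obtain ⟨⟨h100, hw1⟩, hab⟩ := hmem t ht
      have hlam := (lam_facts h100.le).1
      have hne : t ≠ t₀ := by
        intro h
        rw [h] at hw1
        exact hw0 hw1
      have hd : 0 < |t - t₀| := abs_pos.2 (sub_ne_zero.2 hne)
      have hlip := ww_lip hc (x := t) (y := t₀) (Y := 9 * T) h100.le (by linarith)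
        (by linarith [hab.2]) (by linarith)
      rw [hw1] at hlip
      have e1 : ‖riemannZeta (cp t) * (Real.exp (-(t - t₀) ^ 2) : ℂ) /
          ((lam t : ℂ) * ((t - t₀ : ℝ) * I))‖ =
          |ff u t| * (Real.exp (-(t - t₀) ^ 2) / lam t) / |t - t₀| := by
        rw [zeta_eq hu h100 hw1, norm_div, norm_mul, norm_mul, norm_mul, norm_mul, hu,
          Complex.norm_I, Complex.norm_real, Complex.norm_real, Complex.norm_real,
          Complex.norm_real, Real.norm_eq_abs, Real.norm_eq_abs, Real.norm_eq_abs,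
          Real.norm_eq_abs, abs_of_pos (Real.exp_pos _), abs_of_pos (by linarith : (0 : ℝ) < lam t)]
        field_simp
      rw [e1]
      have hX0 : 0 ≤ |ff u t| * (Real.exp (-(t - t₀) ^ 2) / lam t) := by positivity
      calc |ff u t| * (Real.exp (-(t - t₀) ^ 2) / lam t) / |t - t₀| * ‖W‖
          ≤ |ff u t| * (Real.exp (-(t - t₀) ^ 2) / lam t) / |t - t₀| *
            (Real.log (9 * T) * |t - t₀|) := by
              refine mul_le_mul_of_nonneg_left hlip (by positivity)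
        _ = Real.log (9 * T) * (|ff u t| * (Real.exp (-(t - t₀) ^ 2) / lam t)) := by
              field_simp
    have h6 : ‖riemannZeta (cp t₀)‖ = ‖riemannZeta (cp t₀) / W‖ * ‖W‖ := by
      rw [← norm_mul, div_mul_cancel₀ _ hW0]
    have h7 : ‖riemannZeta (cp t₀) / W‖ ≤ C1 +
        ‖∑ t ∈ S, riemannZeta (cp t) * (Real.exp (-(t - t₀) ^ 2) : ℂ) /
        ((lam t : ℂ) * ((t - t₀ : ℝ) * I))‖ := by
      have e : riemannZeta (cp t₀) / W =
          (riemannZeta (cp t₀) / W + ∑ t ∈ S, riemannZeta (cp t) *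
            (Real.exp (-(t - t₀) ^ 2) : ℂ) / ((lam t : ℂ) * ((t - t₀ : ℝ) * I))) -
          ∑ t ∈ S, riemannZeta (cp t) * (Real.exp (-(t - t₀) ^ 2) : ℂ) /
            ((lam t : ℂ) * ((t - t₀ : ℝ) * I)) := by ring
      rw [e]
      refine (norm_sub_le _ _).trans ?_
      linarith
    have h8 : Real.log (9 * T) ≤ 2 * Real.log t₀ := by
      have e1 : 2 * Real.log t₀ = Real.log (t₀ ^ 2) := by
        rw [Real.log_pow]
        norm_num
      rw [e1]
      apply Real.log_le_log (by linarith)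
      nlinarith
    rw [h6]
    calc ‖riemannZeta (cp t₀) / W‖ * ‖W‖ ≤ (C1 +
        ‖∑ t ∈ S, riemannZeta (cp t) * (Real.exp (-(t - t₀) ^ 2) : ℂ) /
        ((lam t : ℂ) * ((t - t₀ : ℝ) * I))‖) * ‖W‖ := mul_le_mul_of_nonneg_right h7 hWn.le
      _ = C1 * ‖W‖ + ‖∑ t ∈ S, riemannZeta (cp t) * (Real.exp (-(t - t₀) ^ 2) : ℂ) /
        ((lam t : ℂ) * ((t - t₀ : ℝ) * I))‖ * ‖W‖ := by ring
      _ ≤ C1 * 2 + Real.log (9 * T) * L := by gcongr
      _ ≤ C1 * 2 + (2 * Real.log t₀) * ((3 * C1 + 2) * (M + 1)) := by gcongr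
      _ ≤ (8 * C1 + 4) * (M + 1) * Real.log t₀ := by
          have : 1 ≤ (M + 1) * Real.log t₀ := by nlinarith
          nlinarith

end Pool.Agent.Q260.LR
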